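import Mathlib
import Pool.Agent.Y120.J.Defs
set_option autoImplicit false

/-! # Differential equations of the power series `F`, `G` -/

open PowerSeries

namespace Pool.Agent.Y737.J

open Pool.Agent.Y120.J

/-- `θ = X d/dX` -/
noncomputable def tht (f : ℚ⟦X⟧) : ℚ⟦X⟧ := X * d⁄dX ℚ f

theorem coeff_tht (f : ℚ⟦X⟧) (n : ℕ) : coeff n (tht f) = n * coeff n f := by
  unfold tht
  cases n with
  | zero => simp
  | succ n =>
    rw [coeff_succ_X_mul, coeff_derivative]
    push_cast; ring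

theorem tht_add (a b : ℚ⟦X⟧) : tht (a + b) = tht a + tht b := by
  unfold tht; rw [map_add]; ring

theorem tht_sub (a b : ℚ⟦X⟧) : tht (a - b) = tht a - tht b := by
  unfold tht; rw [map_sub]; ring

theorem tht_mul (a b : ℚ⟦X⟧) : tht (a * b) = tht a * b + a * tht b := by
  unfold tht; rw [Derivation.leibniz]; simp only [smul_eq_mul]; ring

theorem tht_X : tht (X : ℚ⟦X⟧) = X := by
  unfold tht; rw [derivative_X]; ring

theorem tht_C (c : ℚ) : tht (C c : ℚ⟦X⟧) = 0 := by
  unfold tht; rw [derivative_C]; ring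

theorem num_C (k : ℕ) [k.AtLeastTwo] : (OfNat.ofNat k : ℚ⟦X⟧) = C (OfNat.ofNat k : ℚ) := by
  rw [map_ofNat]

/-- `1 - 1728 X` -/
noncomputable def TT : ℚ⟦X⟧ := 1 - 1728 * X

theorem tht_TT : tht TT = -1728 * X := by
  unfold TT
  have h1 : (1 : ℚ⟦X⟧) = C (1 : ℚ) := by simp
  rw [tht_sub, tht_mul, tht_X, num_C 1728, tht_C, h1, tht_C]
  ring

theorem fa_succ (n : ℕ) : ((n : ℚ) + 1) ^ 2 * fa (n + 1) = (1728 * (n : ℚ) ^ 2 + 864 * n + 60) * fa n := by
  unfold fa
  rw [Finset.prod_range_succ]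
  have : ((n : ℚ) + 1) ≠ 0 := by positivity
  field_simp
  ring

theorem fu_succ (n : ℕ) : ((n : ℚ) + 1) * fu (n + 1) = (1728 * (n : ℚ) - 432) * fu n := by
  unfold fu
  rw [Finset.prod_range_succ]
  have : ((n : ℚ) + 1) ≠ 0 := by positivity
  field_simp
  ring

theorem fb_succ (n : ℕ) : fb (n + 1) = fb n +
    (12 / (12 * (n : ℚ) + 1) + 12 / (12 * (n : ℚ) + 5) - 2 / ((n : ℚ) + 1)) := by
  unfold fb
  rw [Finset.sum_range_succ]

theorem coeff_num (k : ℕ) [k.AtLeastTwo] (f : ℚ⟦X⟧) (n : ℕ) :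
    coeff n ((OfNat.ofNat k : ℚ⟦X⟧) * f) = (OfNat.ofNat k : ℚ) * coeff n f := by
  rw [num_C, coeff_C_mul]

theorem eq1 : TT * tht (mk fu) = -432 * (X * mk fu) := by
  ext n
  unfold TT
  rw [sub_mul, one_mul, mul_assoc, neg_mul, map_sub, map_neg, coeff_num, coeff_num, coeff_tht]
  cases n with
  | zero => simp
  | succ n =>
    rw [coeff_succ_X_mul, coeff_succ_X_mul, coeff_tht, coeff_mk, coeff_mk]
    have := fu_succ n
    push_cast
    linear_combination this

theorem eq2 : TT * tht (tht (mk fa)) = 864 * (X * tht (mk fa)) + 60 * (X * mk fa) := by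
  ext n
  unfold TT
  rw [sub_mul, one_mul, mul_assoc, map_sub, map_add, coeff_num, coeff_num, coeff_num,
    coeff_tht (tht (mk fa)), coeff_tht]
  cases n with
  | zero => simp
  | succ n =>
    rw [coeff_succ_X_mul, coeff_succ_X_mul, coeff_succ_X_mul, coeff_tht (tht (mk fa)), coeff_tht,
      coeff_mk, coeff_mk]
    have := fa_succ n
    push_cast
    linear_combination this

theorem eq3 : TT * (tht (tht (mk fun n => fa n * fb n)) + 2 * tht (mk fa)) =
    864 * (X * (tht (mk fun n => fa n * fb n) + mk fa)) +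
      60 * (X * mk fun n => fa n * fb n) := by
  ext n
  unfold TT
  set g : ℚ⟦X⟧ := mk fun n => fa n * fb n with hg
  rw [sub_mul, one_mul, mul_assoc, map_sub, map_add, map_add, coeff_num, coeff_num, coeff_num,
    coeff_num, coeff_tht (tht g), coeff_tht g, coeff_tht (mk fa)]
  cases n with
  | zero => simp [hg, fb]
  | succ n =>
    rw [coeff_succ_X_mul, coeff_succ_X_mul, coeff_succ_X_mul, map_add, map_add, coeff_num,
      coeff_tht (tht g), coeff_tht g, coeff_tht (mk fa), hg, coeff_mk, coeff_mk, coeff_mk, coeff_mk,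
      fb_succ]
    have h1 := fa_succ n
    have h2 : ((n : ℚ) + 1) ≠ 0 := by positivity
    have h3 : (12 * (n : ℚ) + 1) ≠ 0 := by positivity
    have h4 : (12 * (n : ℚ) + 5) ≠ 0 := by positivity
    have h5 : fa (n + 1) = (12 * (12 * (n : ℚ) + 1) * (12 * (n : ℚ) + 5)) * fa n / ((n : ℚ) + 1) ^ 2 := by
      rw [eq_div_iff (by positivity)]
      linear_combination h1
    rw [h5]
    push_cast
    field_simp
    ring

/-- `ps` as a ring homomorphism -/
noncomputable def psh : Polynomial ℤ →+* ℚ⟦X⟧ :=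
  (Polynomial.coeToPowerSeries.ringHom (R := ℚ)).comp (Polynomial.mapRingHom (Int.castRingHom ℚ))

theorem psh_eq (P : Polynomial ℤ) : Pool.Agent.Y113.ps P = psh P := rfl

theorem psh_X : psh Polynomial.X = X := by
  rw [← psh_eq]
  unfold Pool.Agent.Y113.ps
  simp

theorem ps_T1 : Pool.Agent.Y113.ps T1 = TT ^ 2 := by
  rw [psh_eq]
  unfold T1 TT
  rw [map_pow, map_sub, map_one, map_mul, map_ofNat, psh_X]

theorem ps_Q1 : Pool.Agent.Y113.ps Q1 = X * (82944 * X - 372) := by
  rw [psh_eq]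
  unfold Q1
  rw [map_mul, map_sub, map_mul, map_ofNat, map_ofNat, psh_X]

theorem eq1' : TT * tht (tht (mk fu)) = 1296 * X * tht (mk fu) - 432 * X * mk fu := by
  have h := congrArg tht eq1
  have h1 : (-432 : ℚ⟦X⟧) = C (-432 : ℚ) := by rw [map_neg, map_ofNat]
  rw [tht_mul, tht_TT, h1, tht_mul, tht_C, tht_mul, tht_X, ← h1] at h
  linear_combination h

theorem F1_eq : F1 = tht FF := rfl
theorem G1_eq : G1 = tht GG + FF := rfl

theorem ode1 : TT ^ 2 * tht F1 = X * (82944 * X - 372) * FF := by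
  rw [F1_eq]
  unfold FF
  rw [tht_mul, tht_add, tht_mul, tht_mul]
  have h1 := eq1
  have h1' := eq1'
  have h2 := eq2
  set u : ℚ⟦X⟧ := mk fu
  set f : ℚ⟦X⟧ := mk fa
  have hT : TT = 1 - 1728 * X := rfl
  linear_combination (TT * f) * h1' + (1296 * X * f) * h1 + 2 * TT * tht f * h1 + TT * u * h2 +
    (60 * X * u * f - 432 * X * u * f) * hT

theorem ode2 : TT ^ 2 * (tht G1 + F1) = X * (82944 * X - 372) * GG := by
  rw [F1_eq, G1_eq]
  unfold FF GG
  rw [tht_add, tht_mul, tht_add, tht_mul, tht_mul, tht_mul]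
  have h1 := eq1
  have h1' := eq1'
  have h3 := eq3
  set u : ℚ⟦X⟧ := mk fu
  set f : ℚ⟦X⟧ := mk fa
  set g : ℚ⟦X⟧ := mk fun n => fa n * fb n
  have hT : TT = 1 - 1728 * X := rfl
  linear_combination (TT * g) * h1' + (1296 * X * g) * h1 + 2 * TT * tht g * h1 + 2 * TT * f * h1 +
    TT * u * h3 + (60 * X * u * g - 432 * X * u * g) * hT

theorem TT_ne : TT ≠ 0 := by
  intro h
  have := congrArg (coeff 0) h
  simp [TT] at this

theorem wr : FF * G1 - F1 * GG = 1 := by
  have h1 : TT ^ 2 * tht (FF * G1 - F1 * GG) = 0 := by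
    rw [tht_sub, tht_mul, tht_mul]
    have h2 := ode1
    have h3 := ode2
    have h4 : tht FF = F1 := rfl
    have h5 : tht GG = G1 - FF := by rw [G1_eq]; ring
    rw [h4, h5]
    linear_combination FF * h3 - GG * h2
  have h2 : tht (FF * G1 - F1 * GG) = 0 := by
    rcases mul_eq_zero.1 h1 with h | h
    · exact absurd h (pow_ne_zero 2 TT_ne)
    · exact h
  ext n
  have h3 := congrArg (coeff n) h2
  rw [coeff_tht, map_zero] at h3
  cases n with
  | zero =>
    rw [coeff_zero_eq_constantCoeff_apply]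
    have e1 : constantCoeff FF = 1 := by
      unfold FF
      rw [map_mul, ← coeff_zero_eq_constantCoeff_apply, ← coeff_zero_eq_constantCoeff_apply,
        coeff_mk, coeff_mk]
      simp [fu, fa]
    have e2 : constantCoeff GG = 0 := by
      unfold GG
      rw [map_mul, ← coeff_zero_eq_constantCoeff_apply, ← coeff_zero_eq_constantCoeff_apply,
        coeff_mk, coeff_mk]
      simp [fu, fa, fb]
    have e3 : constantCoeff G1 = 1 := by
      rw [G1_eq, map_add, e1, ← coeff_zero_eq_constantCoeff_apply, coeff_tht]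
      simp
    rw [map_sub, map_mul, map_mul, e1, e2, e3]
    simp
  | succ n =>
    rcases mul_eq_zero.1 h3 with h | h
    · exfalso
      have : ((n : ℚ) + 1) ≠ 0 := by positivity
      apply this
      exact_mod_cast h
    · rw [h, coeff_one]
      simp

theorem t_ode : T_ODE := by
  refine ⟨?_, ?_, wr⟩
  · rw [ps_T1, ps_Q1]; exact ode1
  · rw [ps_T1, ps_Q1]; exact ode2

end Pool.Agent.Y737.J
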